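import Pool.Agent.helper32.TRG.Spec

/-!
# Project TRG (MP_561ff4_al): row Z5A (five conjugates generate, type `0`)
-/

set_option autoImplicit false

open Finset

namespace Pool.Agent.TRI

open Pool.Agent.EXC

theorem Z5A_chi (j : Fin 6) (hj : j = 2 ∨ j = 3 ∨ j = 4) : ∃ χ : Fin 4 → ℤ, cv4 χ th4 = 0 ∧ cv4 χ (bt4 j) = 1 := by
  rcases hj with rfl | rfl | rfl
  · exact ⟨![1, 0, -1, 0], by decide +kernel, by decide +kernel⟩
  · exact ⟨![-1, 0, 1, 0], by decide +kernel, by decide +kernel⟩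
  · exact ⟨![-1, 0, 0, 1], by decide +kernel, by decide +kernel⟩

theorem Z5A_neg (hX4C : X4C_stmt) {F : Type} [Field F] (χ : Fin 4 → ℤ) (c : F) (hc : c ≠ 0) (α : Fin 4 → ℤ) (hα : ip C4 α α = 2) (s : F) :
    XP χ c α (-s) = (XP χ c α s)⁻¹ := by
  have h1 := (hX4C F χ c hc α α hα hα s (-s)).1
  have h2 := (hX4C F χ c hc α α hα hα s (-s)).2.1
  rw [add_neg_cancel, h2] at h1
  exact eq_inv_of_mul_eq_one_right h1.symm

theorem Z5A_sgn (hX4C : X4C_stmt) {F : Type} [Field F] (χ : Fin 4 → ℤ) (c : F) (hc : c ≠ 0) (α : Fin 4 → ℤ) (hα : ip C4 α α = 2)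
    (H : Subgroup (Lm C4 F ≃ₗ[F] Lm C4 F)) (ε : F) (hε : ε = 1 ∨ ε = -1) (h1 : XP χ c α 1 ∈ H) : XP χ c α ε ∈ H := by
  rcases hε with rfl | rfl
  · exact h1
  · rw [Z5A_neg hX4C χ c hc α hα 1]
    exact inv_mem h1

theorem Z5A_mem {F : Type} [Field F] (χ : Fin 4 → ℤ) (c : F) (α : Fin 4 → ℤ) (hα : ip C4 α α = 2) (s : F) : XP χ c α s ∈ GE C4 F := by
  unfold XP
  exact (g_XG F α hα _).2.1

theorem Z5A_claim (hX4C : X4C_stmt) (hY4P : Y4P_stmt) {F : Type} [Field F] (χ : Fin 4 → ℤ) (κ : F) (hκ : κ ≠ 0) (j : Fin 6)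
    (hj : j = 2 ∨ j = 3 ∨ j = 4) (hχ1 : cv4 χ th4 = 0) (hχ2 : cv4 χ (bt4 j) = 1) (T : F) (P : List ((Fin 4 → ℤ) × Bool)) (hP : OkQ j P) :
    ∃ g ∈ GE C4 F, ∃ l : List ((Fin 4 → ℤ) × F), OKs P l ∧
      (∀ u v w : Fin 4 → ℤ, P = [(u, true), (v, true), (w, false)] →
        ∃ ε ε' : F, (ε = 1 ∨ ε = -1) ∧ (ε' = 1 ∨ ε' = -1) ∧ l = [(u, ε), (v, ε'), (w, T)]) ∧
      g * (XP χ κ th4 1 * XP χ κ (bt4 j) 1) * g⁻¹ = pq χ κ l := by
  obtain ⟨u, v, hK, hP⟩ := hP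
  obtain ⟨g0, hg0, ε, ε', hε, hε', he⟩ := hY4P F χ κ hκ j hj hχ1 hχ2 u v hK 1 one_ne_zero
  rw [one_pow, mul_one] at he
  rcases hP with rfl | ⟨w, b, hw, hwu, hwv, rfl⟩
  · refine ⟨g0, hg0, [(u, ε), (v, ε')], ?_, ?_, ?_⟩
    · exact List.Forall₂.cons ⟨rfl, fun _ => hε⟩ (List.Forall₂.cons ⟨rfl, fun _ => hε'⟩ List.Forall₂.nil)
    · intro u' v' w' h
      exact absurd (congrArg List.length h) (by simp)
    · unfold pq
      rw [List.map_cons, List.map_cons, List.map_nil, List.prod_cons, List.prod_cons, List.prod_nil, mul_one]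
      exact he
  · have hδδ : ip C4 (w - u) (w - u) = 2 := by
      have h := hK.1
      have hc : ip C4 u w = 1 := by rw [ip_comm]; exact hwu
      simp only [sub_eq_add_neg, ip_add_left, ip_add_right, ip_neg_left, ip_neg_right, hw, hwu, h, hc]
      norm_num
    have hδu : ip C4 (w - u) u = -1 := by
      rw [sub_eq_add_neg, ip_add_left, ip_neg_left, hwu, hK.1]
      norm_num
    have hδv : ip C4 (w - u) v = 1 := by
      rw [sub_eq_add_neg, ip_add_left, ip_neg_left, hwv, hK.2.2.1]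
      norm_num
    have hδ : w - u + u = w := sub_add_cancel w u
    obtain ⟨τ, hτ⟩ : ∃ τ : F, τ = if b = true then 1 else T := ⟨_, rfl⟩
    have hε2 : ε * ε = 1 := by rcases hε with rfl | rfl <;> ring
    have hsg : ((sg C4 (w - u) u : ℤ) : F) * ((sg C4 (w - u) u : ℤ) : F) = 1 := by
      rw [← Int.cast_mul, sg_mul_self, Int.cast_one]
    have h1 := (hX4C F χ κ hκ (w - u) u hδδ hK.1 (τ * ε * ((sg C4 (w - u) u : ℤ) : F)) ε).2.2.2 hδu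
    rw [hδ] at h1
    have h2 : τ * ε * ((sg C4 (w - u) u : ℤ) : F) * ε * ((sg C4 (w - u) u : ℤ) : F) = τ := by
      linear_combination (τ * ((sg C4 (w - u) u : ℤ) : F) * ((sg C4 (w - u) u : ℤ) : F)) * hε2 + τ * hsg
    rw [h2] at h1
    obtain ⟨D, hD⟩ : ∃ D, D = XP χ κ (w - u) (τ * ε * ((sg C4 (w - u) u : ℤ) : F)) := ⟨_, rfl⟩
    have h3 := (hX4C F χ κ hκ (w - u) v hδδ hK.2.1 (τ * ε * ((sg C4 (w - u) u : ℤ) : F)) ε').2.2.1 (by rw [hδv]; norm_num)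
    have h4 := (hX4C F χ κ hκ w v hw hK.2.1 τ ε').2.2.1 (by rw [hwv]; norm_num)
    rw [← hD] at h1 h3
    refine ⟨D * g0, mul_mem (by rw [hD]; exact Z5A_mem χ κ _ hδδ _) hg0, [(u, ε), (v, ε'), (w, τ)], ?_, ?_, ?_⟩
    · refine List.Forall₂.cons ⟨rfl, fun _ => hε⟩ (List.Forall₂.cons ⟨rfl, fun _ => hε'⟩ (List.Forall₂.cons ⟨rfl, fun hb => ?_⟩ List.Forall₂.nil))
      left
      show τ = 1
      rw [hτ]
      exact if_pos hb
    · intro u' v' w' h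
      simp only [List.cons.injEq, Prod.mk.injEq, and_true] at h
      obtain ⟨rfl, rfl, rfl, rfl⟩ := h
      refine ⟨ε, ε', hε, hε', ?_⟩
      rw [hτ]
      simp
    · have h5 : D * g0 * (XP χ κ th4 1 * XP χ κ (bt4 j) 1) * (D * g0)⁻¹ = D * (g0 * (XP χ κ th4 1 * XP χ κ (bt4 j) 1) * g0⁻¹) * D⁻¹ := by
        group
      rw [h5, he]
      have h6 : D * (XP χ κ u ε * XP χ κ v ε') * D⁻¹ = (D * XP χ κ u ε * D⁻¹) * (D * XP χ κ v ε' * D⁻¹) := by group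
      have h7 : D * XP χ κ v ε' * D⁻¹ = XP χ κ v ε' := by rw [h3, mul_inv_cancel_right]
      rw [h6, h1, h7, mul_assoc, h4]
      unfold pq
      rw [List.map_cons, List.map_cons, List.map_cons, List.map_nil, List.prod_cons, List.prod_cons, List.prod_cons, List.prod_nil, mul_one]

theorem Z5A_root (j : Fin 6) (P : List ((Fin 4 → ℤ) × Bool)) (hP : OkQ j P) : ∀ p ∈ P, ip C4 p.1 p.1 = 2 := by
  obtain ⟨u, v, hK, rfl | ⟨w, b, hw, -, -, rfl⟩⟩ := hP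
  · intro p hp
    simp only [List.mem_cons, List.not_mem_nil, or_false] at hp
    rcases hp with rfl | rfl
    · exact hK.1
    · exact hK.2.1
  · intro p hp
    simp only [List.mem_cons, List.not_mem_nil, or_false] at hp
    rcases hp with rfl | rfl | rfl
    · exact hK.1
    · exact hK.2.1
    · exact hw

theorem Z5A (hX4C : X4C_stmt) (hS4N : S4N_stmt) (hN4N : N4N_stmt) (hF4G : F4G_stmt) (hY4P : Y4P_stmt) : Z5A_stmt := by
  intro F _ _ j hj hCt a b y κ hκ hkk hExa hExb hY4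
  obtain ⟨k, hk, hka, hkb⟩ := hkk
  obtain ⟨g0, h0, hg, hh, hy⟩ := hY4
  obtain ⟨χ, hχ1, hχ2⟩ := Z5A_chi j hj
  have hEXF := g4_EXF F
  have hβr : ip C4 (bt4 j) (bt4 j) = 2 := (bt4_spec j).1
  have hka2 := (hEXF.2.2.1 a hExa).2.2.2.2.2.2.2.1 k hk 1 g0 hg
  have hkb2 := (hEXF.2.2.1 b hExb).2.2.2.2.2.2.2.1 k hk 1 h0 hh
  rw [hka] at hka2
  rw [hkb] at hkb2
  have h1 : k * (g0 : Lm C4 F ≃ₗ[F] Lm C4 F) * k⁻¹ = XG C4 th4 1 := by
    apply LinearEquiv.ext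
    intro v
    rw [hka2 v, (g_XG F th4 th4_root 1).1 v]
  have h2 : k * (h0 : Lm C4 F ≃ₗ[F] Lm C4 F) * k⁻¹ = XG C4 (bt4 j) κ := by
    apply LinearEquiv.ext
    intro v
    have hX := (hEXF.2.2.1 _ (hEXF.2.1 (bt4 j) hβr)).1
    rw [hkb2 v, ((f_XAU 4 C4 F _ hX).2.2.2 κ).2 1 v, mul_one, (g_XG F (bt4 j) hβr κ).1 v]
  have hY : k * (y : Lm C4 F ≃ₗ[F] Lm C4 F) * k⁻¹ = XP χ κ th4 1 * XP χ κ (bt4 j) 1 := by
    have e1 : XP χ κ th4 1 = XG C4 th4 1 := by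
      unfold XP
      rw [hχ1, zpow_zero, mul_one]
    have e2 : XP χ κ (bt4 j) 1 = XG C4 (bt4 j) κ := by
      unfold XP
      rw [hχ2, zpow_one, one_mul]
    rw [e1, e2, hy, ← h1, ← h2, Subgroup.coe_mul]
    group
  obtain ⟨t, ht0, htA⟩ := hF4G F
  obtain ⟨PL, hlen, hOk, ⟨u, v, w, hu, hv, hw, hPw⟩, hCg⟩ := hCt
  have hq : ∀ i : Fin 5, ∃ g ∈ GE C4 F, ∃ l : List ((Fin 4 → ℤ) × F), OKs (PL.get (i.cast hlen.symm)) l ∧
      (∀ u v w : Fin 4 → ℤ, PL.get (i.cast hlen.symm) = [(u, true), (v, true), (w, false)] →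
        ∃ ε ε' : F, (ε = 1 ∨ ε = -1) ∧ (ε' = 1 ∨ ε' = -1) ∧ l = [(u, ε), (v, ε'), (w, t ^ 2)]) ∧
      g * (XP χ κ th4 1 * XP χ κ (bt4 j) 1) * g⁻¹ = pq χ κ l := fun i =>
    Z5A_claim hX4C hY4P χ κ hκ j hj hχ1 hχ2 (t ^ 2) _ (hOk _ (List.get_mem PL _))
  choose h hhG l hl1 hl2 hhe using hq
  refine ⟨fun i => (⟨h i * k, mul_mem (hhG i) hk⟩ : EG C4 F), ?_⟩
  obtain ⟨g, hgdef⟩ : ∃ g : Fin 5 → EG C4 F, g = fun i => (⟨h i * k, mul_mem (hhG i) hk⟩ : EG C4 F) := ⟨_, rfl⟩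
  rw [← hgdef]
  have hgs : ∀ i : Fin 5, ((g i : EG C4 F) : Lm C4 F ≃ₗ[F] Lm C4 F) = h i * k := by
    intro i; rw [hgdef]
  have hmem : ∀ i, ((g i * y * (g i)⁻¹ : EG C4 F) : Lm C4 F ≃ₗ[F] Lm C4 F) ∈
      (Subgroup.closure (Set.range fun i => g i * y * (g i)⁻¹)).map (GE C4 F).subtype := fun i =>
    ⟨_, Subgroup.subset_closure ⟨i, rfl⟩, rfl⟩
  generalize hH' : Subgroup.closure (Set.range fun i => g i * y * (g i)⁻¹) = H' at hmem ⊢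
  obtain ⟨H, hH⟩ : ∃ H, H = H'.map (GE C4 F).subtype := ⟨_, rfl⟩
  rw [← hH] at hmem
  have hms : ∀ i : Fin 5, pq χ κ (l i) ∈ H := by
    intro i
    have h3 := hmem i
    have h4 : ((g i * y * (g i)⁻¹ : EG C4 F) : Lm C4 F ≃ₗ[F] Lm C4 F) =
        h i * (k * (y : Lm C4 F ≃ₗ[F] Lm C4 F) * k⁻¹) * (h i)⁻¹ := by
      rw [Subgroup.coe_mul, Subgroup.coe_mul, Subgroup.coe_inv, hgs]
      group
    rwa [h4, hY, hhe i] at h3
  have hidx : ∀ P ∈ PL, ∃ i : Fin 5, PL.get (i.cast hlen.symm) = P := by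
    intro P hP
    obtain ⟨i, hi⟩ := List.get_of_mem hP
    refine ⟨i.cast hlen, ?_⟩
    have h6 : (i.cast hlen).cast hlen.symm = i := by ext; rfl
    rw [h6, hi]
  have hOK : ∀ P ∈ PL, ∃ q, OKs P q ∧ pq χ κ q ∈ H := by
    intro P hP
    obtain ⟨i, hi⟩ := hidx P hP
    have h7 := hl1 i
    rw [hi] at h7
    exact ⟨l i, h7, hms i⟩
  have hS := hS4N F χ κ hκ PL H (fun P hP => Z5A_root j P (hOk P hP)) hOK
  obtain ⟨hN1, hN2⟩ := hN4N F χ κ hκ H (fun i => ⟨(hS _ (hCg i).1).2, (hS _ (hCg i).2).2⟩)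
  obtain ⟨i, hi⟩ := hidx _ hPw
  obtain ⟨ε, ε', hε, hε', hli⟩ := hl2 i u v w hi
  have hw1 : XP χ κ w (t ^ 2) ∈ H := by
    have h8 := hms i
    rw [hli] at h8
    unfold pq at h8
    rw [List.map_cons, List.map_cons, List.map_cons, List.map_nil, List.prod_cons, List.prod_cons, List.prod_cons, List.prod_nil, mul_one] at h8
    have h9 := mul_mem (inv_mem (Z5A_sgn hX4C χ κ hκ u hu H ε hε (hN1 u hu))) h8
    rw [inv_mul_cancel_left] at h9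
    have h10 := mul_mem (inv_mem (Z5A_sgn hX4C χ κ hκ v hv H ε' hε' (hN1 v hv))) h9
    rwa [inv_mul_cancel_left] at h10
  have hfin := hN2 w (t ^ 2) hw hw1 htA
  rw [eq_top_iff]
  intro x _
  rw [hH] at hfin
  obtain ⟨x', hx', hxx⟩ := hfin x.2
  have h17 : x' = x := Subtype.ext hxx
  rw [← h17]
  exact hx'

end Pool.Agent.TRI
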